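import Pool.Agent.TH505.OCDC.Cover

set_option autoImplicit false

/-!
The edges of a bridgeless simple graph fall into four classes such that the deletion of any one of
them leaves a graph with an oriented cycle double cover.
-/

namespace Pool.Agent.Y530.OC

open Finset
open Pool.Agent.H126R2.CDC (T3)
open Pool.Agent.TH505.OCDC

variable {V : Type}

/-- `n` unit circulations, every arc `(u, v)` having the value one in exactly `w u v` of them -/
def Fam [Fintype V] (G : SimpleGraph V) (w : V → V → ℕ) (n : ℕ) : Prop :=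
  ∃ g : Fin n → V → V → ℤ, (∀ i u v, g i v u = - g i u v) ∧
    (∀ i u v, g i u v = 0 ∨ g i u v = 1 ∨ g i u v = -1) ∧
    (∀ i u v, g i u v ≠ 0 → G.Adj u v) ∧ (∀ i u, ∑ x, g i u x = 0) ∧
    ∀ u v, G.Adj u v → ∑ i, ind (g i u v = 1) = w u v

/-- Directed cycles from unit circulations. -/
theorem Fam.cycles [Fintype V] {G : SimpleGraph V} {w : V → V → ℕ} {n : ℕ} (h : Fam G w n) :
    ∃ C : Fin n → List (Σ v : V, G.Walk v v), (∀ i, ∀ c ∈ C i, c.2.IsCycle) ∧
      (∀ i u v, tot (C i) u v + tot (C i) v u ≤ 1) ∧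
      ∀ u v, G.Adj u v → ∑ i, tot (C i) u v = w u v := by
  obtain ⟨g, g1, g2, g3, g4, g5⟩ := h
  choose C hC1 hC2 using fun i => flow_decomp (g i) (g1 i) (g2 i) (g3 i) (g4 i)
  refine ⟨C, hC1, ?_, ?_⟩
  · intro i u v
    rw [hC2, hC2, g1 i u v]
    rcases g2 i u v with h | h | h
    · rw [h, ind_neg (by norm_num), ind_neg (by norm_num)]; norm_num
    · rw [h, ind_pos rfl, ind_neg (by norm_num)]
    · rw [h, ind_neg (by norm_num), ind_pos (by norm_num)]
  · intro u v h
    rw [← g5 u v h]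
    exact Finset.sum_congr rfl (fun i _ => hC2 i u v)

/-! ### The affine plane of order three -/

/-- the position of a colour in the plane over the field with three elements -/
def pos : T3 → ℕ × ℕ
  | (false, false, false) => (0, 0)
  | (false, false, true) => (0, 1)
  | (false, true, false) => (0, 2)
  | (false, true, true) => (1, 0)
  | (true, false, false) => (1, 1)
  | (true, false, true) => (1, 2)
  | (true, true, false) => (2, 0)
  | (true, true, true) => (2, 1)

/-- the line of the parallel class `i` through a colour -/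
def line (i : Fin 4) (c : T3) : Fin 3 :=
  match i with
  | 0 => Fin.ofNat 3 (pos c).1
  | 1 => Fin.ofNat 3 (pos c).2
  | 2 => Fin.ofNat 3 ((pos c).1 + (pos c).2)
  | 3 => Fin.ofNat 3 ((pos c).1 + 2 * (pos c).2)

/-- two colours are on exactly one common line -/
theorem one_line : ∀ p q : T3, p ≠ q → ∃ i : Fin 4, ∀ j : Fin 4, line j p = line j q ↔ j = i := by
  decide +kernel

/-- the number of colours of a set on the line `j` of the class `i` -/
def cnt (i : Fin 4) (j : Fin 3) (S : Finset T3) : ℕ := (S.filter (fun c => line i c = j)).card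

/-! ### Turning three unoriented even subgraphs into four oriented ones -/

/-- the four combinations -/
def comb (a b c : ℤ) : Fin 4 → ℤ
  | 0 => a + b + c
  | 1 => a - b - c
  | 2 => - a + b - c
  | 3 => - a - b + c

/-- the possible local values -/
def Loc (a b c : ℤ) : Prop :=
  (a = 0 ∧ b = 0 ∧ c = 0) ∨ ((a = 1 ∨ a = -1) ∧ (b = 1 ∨ b = -1) ∧ c = 0) ∨
    ((a = 1 ∨ a = -1) ∧ b = 0 ∧ (c = 1 ∨ c = -1)) ∨ (a = 0 ∧ (b = 1 ∨ b = -1) ∧ (c = 1 ∨ c = -1))

lemma Loc.half {a b c : ℤ} (h : Loc a b c) (m : Fin 4) :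
    2 * (comb a b c m / 2) = comb a b c m ∧
      (comb a b c m / 2 = 0 ∨ comb a b c m / 2 = 1 ∨ comb a b c m / 2 = -1) := by
  rcases h with ⟨rfl, rfl, rfl⟩ | ⟨h1 | h1, h2 | h2, rfl⟩ | ⟨h1 | h1, rfl, h2 | h2⟩ |
    ⟨rfl, h1 | h1, h2 | h2⟩ <;> subst_vars <;> fin_cases m <;> simp [comb]

lemma Loc.neg {a b c : ℤ} (h : Loc a b c) (m : Fin 4) :
    comb (-a) (-b) (-c) m / 2 = - (comb a b c m / 2) := by
  rcases h with ⟨rfl, rfl, rfl⟩ | ⟨h1 | h1, h2 | h2, rfl⟩ | ⟨h1 | h1, rfl, h2 | h2⟩ |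
    ⟨rfl, h1 | h1, h2 | h2⟩ <;> subst_vars <;> fin_cases m <;> simp [comb]

lemma Loc.count {a b c : ℤ} (h : Loc a b c) (hne : ¬ (a = 0 ∧ b = 0 ∧ c = 0)) :
    ∑ m, ind (comb a b c m / 2 = 1) = 1 := by
  rw [Fin.sum_univ_four]
  rcases h with ⟨rfl, rfl, rfl⟩ | ⟨h1 | h1, h2 | h2, rfl⟩ | ⟨h1 | h1, rfl, h2 | h2⟩ |
    ⟨rfl, h1 | h1, h2 | h2⟩ <;> subst_vars <;> first | (exact absurd ⟨rfl, rfl, rfl⟩ hne) |
      (simp [comb, ind])

lemma Loc.count_zero (m : Fin 4) : comb 0 0 0 m / 2 = 0 := by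
  fin_cases m <;> simp [comb]

/-- Three even sets of edges such that every edge is in none or in exactly two of them are covered
by four unit circulations. -/
theorem fam_four [Fintype V] (G : SimpleGraph V) (R : Fin 3 → V → V → Prop)
    (hadj : ∀ j u v, R j u v → G.Adj u v) (hsymm : ∀ j u v, R j u v → R j v u)
    (heven : ∀ j v, Even (∑ x, ind (R j v x))) (w : V → V → ℕ)
    (hloc : ∀ u v, G.Adj u v → (w u v = 0 ∧ ¬ R 0 u v ∧ ¬ R 1 u v ∧ ¬ R 2 u v) ∨
      (w u v = 1 ∧ ((R 0 u v ∧ R 1 u v ∧ ¬ R 2 u v) ∨ (R 0 u v ∧ ¬ R 1 u v ∧ R 2 u v) ∨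
        (¬ R 0 u v ∧ R 1 u v ∧ R 2 u v)))) :
    Fam G w 4 := by
  have hor : ∀ j : Fin 3, ∃ g : V → V → ℤ, (∀ u v, g v u = - g u v) ∧
      (∀ u v, R j u v → g u v = 1 ∨ g u v = -1) ∧
      (∀ u v, ¬ R j u v → g u v = 0) ∧ ∀ u, ∑ x, g u x = 0 := fun j =>
    orient G _ (R j) rfl (hadj j) (hsymm j) (heven j)
  choose f f1 f2 f3 f4 using hor
  have hL : ∀ u v, Loc (f 0 u v) (f 1 u v) (f 2 u v) := by
    intro u v
    by_cases h : G.Adj u v
    · rcases hloc u v h with ⟨_, h0, h1, h2⟩ | ⟨_, ⟨h0, h1, h2⟩ | ⟨h0, h1, h2⟩ | ⟨h0, h1, h2⟩⟩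
      · exact Or.inl ⟨f3 0 u v h0, f3 1 u v h1, f3 2 u v h2⟩
      · exact Or.inr (Or.inl ⟨f2 0 u v h0, f2 1 u v h1, f3 2 u v h2⟩)
      · exact Or.inr (Or.inr (Or.inl ⟨f2 0 u v h0, f3 1 u v h1, f2 2 u v h2⟩))
      · exact Or.inr (Or.inr (Or.inr ⟨f3 0 u v h0, f2 1 u v h1, f2 2 u v h2⟩))
    · exact Or.inl ⟨f3 0 u v (fun h' => h (hadj _ _ _ h')), f3 1 u v (fun h' => h (hadj _ _ _ h')),
        f3 2 u v (fun h' => h (hadj _ _ _ h'))⟩
  refine ⟨fun m u v => comb (f 0 u v) (f 1 u v) (f 2 u v) m / 2, ?_, ?_, ?_, ?_, ?_⟩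
  · intro m u v
    show comb (f 0 v u) (f 1 v u) (f 2 v u) m / 2 = _
    rw [f1 0 u v, f1 1 u v, f1 2 u v]
    exact (hL u v).neg m
  · intro m u v
    exact ((hL u v).half m).2
  · intro m u v h
    by_contra h'
    apply h
    show comb (f 0 u v) (f 1 u v) (f 2 u v) m / 2 = 0
    rw [f3 0 u v (fun h'' => h' (hadj _ _ _ h'')), f3 1 u v (fun h'' => h' (hadj _ _ _ h'')),
      f3 2 u v (fun h'' => h' (hadj _ _ _ h''))]
    exact Loc.count_zero m
  · intro m u
    have h1 : 2 * ∑ x, comb (f 0 u x) (f 1 u x) (f 2 u x) m / 2 = 0 := by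
      rw [Finset.mul_sum, Finset.sum_congr rfl (fun x _ => ((hL u x).half m).1)]
      fin_cases m
      · show ∑ x, (f 0 u x + f 1 u x + f 2 u x) = 0
        simp only [Finset.sum_add_distrib, f4, add_zero]
      · show ∑ x, (f 0 u x - f 1 u x - f 2 u x) = 0
        simp only [Finset.sum_sub_distrib, f4, sub_zero]
      · show ∑ x, (- f 0 u x + f 1 u x - f 2 u x) = 0
        simp only [Finset.sum_sub_distrib, Finset.sum_add_distrib, Finset.sum_neg_distrib, f4]
        norm_num
      · show ∑ x, (- f 0 u x - f 1 u x + f 2 u x) = 0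
        simp only [Finset.sum_sub_distrib, Finset.sum_add_distrib, Finset.sum_neg_distrib, f4]
        norm_num
    show ∑ x, comb (f 0 u x) (f 1 u x) (f 2 u x) m / 2 = 0
    omega
  · intro u v h
    rcases hloc u v h with ⟨hw, h0, h1, h2⟩ | ⟨hw, hh⟩
    · rw [hw]
      apply Finset.sum_eq_zero
      intro m _
      show ind (comb (f 0 u v) (f 1 u v) (f 2 u v) m / 2 = 1) = 0
      rw [f3 0 u v h0, f3 1 u v h1, f3 2 u v h2, Loc.count_zero m]
      exact ind_neg (by norm_num)
    · rw [hw]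
      apply (hL u v).count
      rintro ⟨e0, e1, e2⟩
      rcases hh with ⟨h0, h1, h2⟩ | ⟨h0, h1, h2⟩ | ⟨h0, h1, h2⟩
      · rcases f2 0 u v h0 with h | h <;> omega
      · rcases f2 0 u v h0 with h | h <;> omega
      · rcases f2 1 u v h1 with h | h <;> omega

lemma sum_ind_mem {S : Finset T3} (p : T3 → Prop) [DecidablePred p] :
    (S.filter p).card = ∑ c ∈ univ.filter p, ind (c ∈ S) := by
  rw [Finset.card_filter]
  have h1 : ∀ c ∈ univ.filter p, ind (c ∈ S) = if c ∈ S then 1 else 0 := by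
    intro c _
    by_cases h : c ∈ S
    · rw [ind_pos h, if_pos h]
    · rw [ind_neg h, if_neg h]
  rw [Finset.sum_congr rfl h1, ← Finset.card_filter, ← Finset.card_filter, Finset.filter_filter]
  congr 1
  ext c
  simp [and_comm]

/-- **The four classes.** -/
theorem classes [Fintype V] (G : SimpleGraph V) (hG : NoCut G) :
    ∃ c : Sym2 V → Fin 4, ∀ i, Fam G (fun u v => if c s(u, v) = i then 0 else 1) 4 := by
  classical
  obtain ⟨T, T1, T2, T3', T4⟩ := exists_T G hG
  have hex : ∀ u v, G.Adj u v → ∃ i : Fin 4, ∀ j : Fin 4,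
      (∀ p ∈ T u v, ∀ q ∈ T u v, line j p = line j q) ↔ j = i := by
    intro u v h
    obtain ⟨a, b, hab, hT⟩ := Finset.card_eq_two.1 (T3' u v h)
    obtain ⟨i, hi⟩ := one_line a b hab
    refine ⟨i, fun j => ?_⟩
    rw [← hi j, hT]
    constructor
    · intro h'; exact h' a (by simp) b (by simp)
    · intro h' p hp q hq
      simp only [Finset.mem_insert, Finset.mem_singleton] at hp hq
      rcases hp with rfl | rfl <;> rcases hq with rfl | rfl <;> simp [h']
  have hcl : ∀ e : Sym2 V, ∃ i : Fin 4, ∀ u v, s(u, v) = e → G.Adj u v → ∀ j : Fin 4,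
      (∀ p ∈ T u v, ∀ q ∈ T u v, line j p = line j q) ↔ j = i := by
    intro e
    induction e using Sym2.ind with
    | _ x y =>
      by_cases h : G.Adj x y
      · obtain ⟨i, hi⟩ := hex x y h
        refine ⟨i, ?_⟩
        intro u v huv _ j
        rw [Sym2.eq_iff] at huv
        rcases huv with ⟨rfl, rfl⟩ | ⟨rfl, rfl⟩
        · exact hi j
        · rw [T1]; exact hi j
      · refine ⟨0, ?_⟩
        intro u v huv h'
        exfalso
        rw [Sym2.eq_iff] at huv
        rcases huv with ⟨rfl, rfl⟩ | ⟨rfl, rfl⟩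
        · exact h h'
        · exact h h'.symm
  choose c hc using hcl
  refine ⟨c, fun i => ?_⟩
  refine fam_four G (fun j u v => Odd (cnt i j (T u v))) ?_ ?_ ?_ _ ?_
  · intro j u v h
    by_contra h'
    rw [T2 u v h'] at h
    simp [cnt] at h
  · intro j u v h
    rw [T1 v u]; exact h
  · intro j v
    have h1 : Even (∑ x, cnt i j (T v x)) := by
      have : ∑ x, cnt i j (T v x) = ∑ a ∈ univ.filter (fun a => line i a = j),
          ∑ x, ind (a ∈ T v x) := by
        rw [Finset.sum_comm]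
        exact Finset.sum_congr rfl (fun x _ => sum_ind_mem _)
      rw [this]
      exact Finset.even_sum _ (fun a _ => T4 a v)
    have h2 : ∀ x, (ind (Odd (cnt i j (T v x))) : ZMod 2) = (cnt i j (T v x) : ZMod 2) := by
      intro x
      by_cases h : Odd (cnt i j (T v x))
      · rw [ind_pos h, (ZMod.natCast_eq_one_iff_odd).2 h]; norm_num
      · rw [ind_neg h, eq_comm, Nat.cast_zero, ZMod.natCast_eq_zero_iff_even]
        exact Nat.not_odd_iff_even.1 h
    rw [← ZMod.natCast_eq_zero_iff_even] at h1 ⊢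
    rw [Nat.cast_sum] at h1 ⊢
    rw [Finset.sum_congr rfl (fun x _ => h2 x)]
    exact h1
  · intro u v h
    obtain ⟨a, b, hab, hT⟩ := Finset.card_eq_two.1 (T3' u v h)
    have hi := hc s(u, v) u v rfl h i
    have hcnt : ∀ j, Odd (cnt i j (T u v)) ↔ ¬ ((line i a = j) ↔ (line i b = j)) := by
      intro j
      rw [hT, cnt, Finset.filter_insert, Finset.filter_singleton]
      by_cases h1 : line i a = j
      · by_cases h2 : line i b = j
        · rw [if_pos h1, if_pos h2, Finset.card_pair hab]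
          simp [h1, h2]
        · rw [if_pos h1, if_neg h2]
          simp [h1, h2]
      · by_cases h2 : line i b = j
        · rw [if_neg h1, if_pos h2]
          simp [h1, h2]
        · rw [if_neg h1, if_neg h2]
          simp [h1, h2]
    by_cases hci : c s(u, v) = i
    · left
      have hl : line i a = line i b := (hi.2 hci.symm) a (by rw [hT]; simp) b (by rw [hT]; simp)
      refine ⟨by simp [hci], ?_, ?_, ?_⟩ <;> rw [hcnt] <;> simp [hl]
    · right
      have hl : line i a ≠ line i b := by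
        intro hl
        apply hci
        refine (hi.1 ?_).symm
        intro p hp q hq
        rw [hT] at hp hq
        simp only [Finset.mem_insert, Finset.mem_singleton] at hp hq
        rcases hp with rfl | rfl <;> rcases hq with rfl | rfl <;> simp [hl]
      refine ⟨by simp [hci], ?_⟩
      simp only [hcnt]
      generalize line i a = x at hl ⊢
      generalize line i b = y at hl ⊢
      revert x y
      decide

end Pool.Agent.Y530.OC
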